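import Pool.Agent.W939.Ncr.Final

set_option autoImplicit false

/-!
# A hyperarithmetic degree that contains an NCR real and has no self-modulus

This answers Q1 of MP_4b35b9_lc in the negative.

We construct a computable tree of tokens whose set of paths is countable and has exactly one
member `X` that is not computable; so `X` is hyperarithmetic.  Moreover `X` is of hyperimmune-free
degree, hence every function computable from `X` is dominated by a computable function; if a
function computable from `X` were a modulus for `X`, then `X` would be computable.  The computable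
clopen sets that come from the construction have countable intersection, so a continuous measure of
these sets tends to zero, and every representation of the measure computes a Martin-Löf test that
captures `X`.  So `X` is in NCR.
-/

namespace Pool.Agent.Results.MP_4b35b9_lc.NoSelfModulus

open MeasureTheory
open scoped ENNReal

/-- The real `X` as a (total) function, for use as an oracle. -/
def pf (X : ℕ → Bool) : ℕ →. ℕ := fun n => Part.some (X n).toNat

/-- The basic cylinder `[σ]`. -/
def cyl (σ : List Bool) : Set (ℕ → Bool) := {Z | ∀ i (h : i < σ.length), Z i = σ[i]}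

/-- The real `R` represents `μ`: from `R` one can compute, for every string `σ` and every `p`, a
dyadic rational `a / 2^p` whose distance from `μ [σ]` is at most `2^(-p)`. -/
def Represents (R : ℕ → Bool) (μ : Measure (ℕ → Bool)) : Prop :=
  ∃ a : ℕ → ℕ, TuringReducible (fun n => Part.some (a n)) (pf R) ∧
    ∀ (σ : List Bool) (p : ℕ),
      |(μ (cyl σ)).toReal - (a (Encodable.encode (σ, p)) : ℝ) / 2 ^ p| ≤ 1 / 2 ^ p

/-- `W` is a Martin-Löf test for `μ` relative to `R`: the sets `W n` of strings are r.e. in `R`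
uniformly in `n` and the open set given by `W n` has measure at most `2^(-n)`. -/
def MLTest (R : ℕ → Bool) (μ : Measure (ℕ → Bool)) (W : ℕ → Set (List Bool)) : Prop :=
  (∃ f : ℕ →. ℕ, TuringReducible f (pf R) ∧
    ∀ n σ, σ ∈ W n ↔ (f (Encodable.encode (n, σ))).Dom) ∧
  ∀ n, μ {Z | ∃ σ ∈ W n, Z ∈ cyl σ} ≤ (2⁻¹ : ℝ≥0∞) ^ n

/-- `X` is Martin-Löf random for `μ` relative to `R`. -/
def MLRandom (R : ℕ → Bool) (μ : Measure (ℕ → Bool)) (X : ℕ → Bool) : Prop :=
  ∀ W, MLTest R μ W → ∃ n, ∀ σ ∈ W n, X ∉ cyl σ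

/-- `X` is in `NCR`: it is not `μ`-random for any continuous probability measure `μ`, where
`μ`-random means Martin-Löf random for `μ` relative to some representation of `μ`. -/
def NCR (X : ℕ → Bool) : Prop :=
  ∀ μ : Measure (ℕ → Bool), IsProbabilityMeasure μ → (∀ Z, μ {Z} = 0) →
    ¬ ∃ R, Represents R μ ∧ MLRandom R μ X

/-- `S` is a `Σ¹₁` set of numbers (normal form with a computable matrix). -/
def Sigma11 (S : Set ℕ) : Prop :=
  ∃ R : ℕ → List ℕ → Bool, Computable₂ R ∧
    ∀ n, n ∈ S ↔ ∃ f : ℕ → ℕ, ∀ k, R n ((List.range k).map f) = true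

/-- `X` is hyperarithmetic, i.e. `Δ¹₁`: the set and its complement are `Σ¹₁`. -/
def Hyperarithmetic (X : ℕ → Bool) : Prop :=
  Sigma11 {n | X n = true} ∧ Sigma11 {n | X n = false}

/-- `f` is a modulus for `X`: every function that dominates `f` computes `X`. -/
def IsModulus (f : ℕ → ℕ) (X : ℕ → Bool) : Prop :=
  ∀ g : ℕ → ℕ, (∀ n, f n ≤ g n) → TuringReducible (pf X) (fun n => Part.some (g n))

/-- `X` has a self-modulus: `X` computes a modulus for `X`. -/
def HasSelfModulus (X : ℕ → Bool) : Prop :=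
  ∃ f : ℕ → ℕ, TuringReducible (fun n => Part.some (f n)) (pf X) ∧ IsModulus f X

theorem sigma (V : ℕ → ℕ → Pool.Agent.W939.Ncr.Conf) (hV : Pool.Agent.W939.Ncr.Tower V)
    (b : Bool) : Sigma11 {n | Pool.Agent.W939.Ncr.XX V n = b} := by
  obtain ⟨hd, h⟩ := Pool.Agent.W939.Ncr.pr_RR b
  refine ⟨fun n l => decide (Pool.Agent.W939.Ncr.RR b (n, l)), h.to_comp, fun n => ?_⟩
  show Pool.Agent.W939.Ncr.XX V n = b ↔ _
  rw [Pool.Agent.W939.Ncr.X_hyp hV b n]
  simp only [decide_eq_true_eq]

theorem result : ∃ X : ℕ → Bool, Hyperarithmetic X ∧ NCR X ∧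
    ∀ Y : ℕ → Bool, TuringEquivalent (pf Y) (pf X) → ¬ HasSelfModulus Y := by
  obtain ⟨V, hV⟩ := Pool.Agent.W939.Ncr.exists_tower
  refine ⟨Pool.Agent.W939.Ncr.XX V, ⟨sigma V hV true, sigma V hV false⟩, ?_, ?_⟩
  · rintro μ hμ1 hμ2 ⟨R, ⟨a, ha, hap⟩, hR⟩
    obtain ⟨W, h1, h2, h3⟩ := Pool.Agent.W939.Ncr.capture hV (Y := Pool.Agent.W939.Ncr.XX V)
      (Pool.Agent.H84R6.rec_refl _) hμ2 (g := Pool.Agent.H84R6.o R) (a := a) ha hap
    obtain ⟨n, hn⟩ := hR W ⟨h1, h2⟩
    obtain ⟨σ, h4, h5⟩ := h3 n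
    exact hn σ h4 h5
  · rintro Y ⟨hYX, hXY⟩ ⟨f, hf, hm⟩
    obtain ⟨g, hg1, hg2⟩ := Pool.Agent.W939.Ncr.X_hif hV (f := f)
      (TuringReducible.trans hf hYX)
    have h1 : TuringReducible (pf (Pool.Agent.W939.Ncr.XX V)) (fun n => Part.some (g n)) :=
      TuringReducible.trans hXY (hm g hg2)
    apply Pool.Agent.W939.Ncr.X_nc hV
    apply Pool.Agent.W939.Ncr.comp_of_toNat
    have h2 : Partrec (fun n : ℕ => Part.some (g n)) := hg1
    have h3 : Partrec (pf (Pool.Agent.W939.Ncr.XX V)) := by
      refine RecursiveIn.partrec_of_oracle (O := {(g : ℕ →. ℕ)}) ?_ h1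
      intro g' hg'
      rw [Set.mem_singleton_iff.1 hg']
      exact h2
    exact h3

end Pool.Agent.Results.MP_4b35b9_lc.NoSelfModulus
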